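import Mathlib

/-!
# Definitions: Cremer points, admissible domains, two-sided stable sets, hedgehogs
-/

set_option autoImplicit false

open Topology

namespace Pool.Agent.Cremer51

/-- The germ of `f` at `0` is holomorphic, fixes `0`, and `0` is a Cremer point: the multiplier is
`e^{2πiθ}` with `θ` irrational and `f` is not (holomorphically) linearizable. -/
def IsCremer (f : ℂ → ℂ) : Prop :=
  AnalyticAt ℂ f 0 ∧ f 0 = 0 ∧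
    (∃ θ : ℝ, Irrational θ ∧
      deriv f 0 = Complex.exp (2 * (Real.pi : ℂ) * Complex.I * (θ : ℂ))) ∧
    ¬ ∃ ψ : ℂ → ℂ, AnalyticAt ℂ ψ 0 ∧ ψ 0 = 0 ∧ deriv ψ 0 ≠ 0 ∧
      ∀ᶠ z in 𝓝 (0 : ℂ), ψ (f z) = deriv f 0 * ψ z

/-- `U` is an admissible domain for `f`: a compact set homeomorphic to the closed disc, with `0` in
its interior, on a neighbourhood of which `f` is holomorphic and injective. -/
def Admissible (f : ℂ → ℂ) (U : Set ℂ) : Prop :=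
  IsCompact U ∧ Nonempty (↥U ≃ₜ ↥(Metric.closedBall (0 : ℂ) 1)) ∧ (0 : ℂ) ∈ interior U ∧
    ∃ W : Set ℂ, IsOpen W ∧ U ⊆ W ∧ DifferentiableOn ℂ f W ∧ Set.InjOn f W

/-- The two-sided stable set: the points of `U` having a full (forward and backward) orbit
in `U`. -/
def stableSet (f : ℂ → ℂ) (U : Set ℂ) : Set ℂ :=
  {z | ∃ x : ℤ → ℂ, x 0 = z ∧ ∀ k, x k ∈ U ∧ f (x k) = x (k + 1)}

/-- The hedgehog of `f` in `U`: the connected component of `0` in the two-sided stable set. -/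
def hedgehog (f : ℂ → ℂ) (U : Set ℂ) : Set ℂ := connectedComponentIn (stableSet f U) 0

/-- `A` and `B` have homeomorphic germs at `0` (by a homeomorphism sending `0` to `0`). -/
def HomeoGerms (A B : Set ℂ) : Prop :=
  ∃ V : Set ℂ, V ∈ 𝓝 (0 : ℂ) ∧ ∃ W : Set ℂ, W ∈ 𝓝 (0 : ℂ) ∧
    ∃ φ : ↥(A ∩ V) ≃ₜ ↥(B ∩ W), ∀ x : ↥(A ∩ V), (x : ℂ) = 0 → ((φ x : ↥(B ∩ W)) : ℂ) = 0

/-- `f` and `g` are topologically locally conjugate at `0`. -/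
def TopConj (f g : ℂ → ℂ) : Prop :=
  ∃ V : Set ℂ, V ∈ 𝓝 (0 : ℂ) ∧ ∃ W : Set ℂ, W ∈ 𝓝 (0 : ℂ) ∧
    ∃ h : ↥V ≃ₜ ↥W, (∀ x : ↥V, (x : ℂ) = 0 → ((h x : ↥W) : ℂ) = 0) ∧
      ∃ ε : ℝ, ε > 0 ∧ ∀ x y : ↥V, ‖(x : ℂ)‖ < ε → (y : ℂ) = f (x : ℂ) →
        ((h y : ↥W) : ℂ) = g ((h x : ↥W) : ℂ)

end Pool.Agent.Cremer51
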