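import Mathlib

/-!
# Lifting discs through `z ↦ κ(z)^2 + v`; attracting cycles attract `v`.
-/

set_option autoImplicit false

open Metric Set Filter Topology

namespace Pool.Agent.Cremer51

/-- holomorphic square root on a disc -/
theorem exists_sqrt {r : ℝ} (hr : 0 < r) {F : ℂ → ℂ} (hF : DifferentiableOn ℂ F (ball 0 r))
    (h0 : ∀ z ∈ ball (0:ℂ) r, F z ≠ 0) (s0 : ℂ) (hs0 : s0 ^ 2 = F 0) :
    ∃ s : ℂ → ℂ, DifferentiableOn ℂ s (ball 0 r) ∧ s 0 = s0 ∧
      ∀ z ∈ ball (0:ℂ) r, s z ^ 2 = F z := by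
  have hF' : DifferentiableOn ℂ (deriv F) (ball 0 r) := hF.deriv isOpen_ball
  have hd : DifferentiableOn ℂ (fun z => deriv F z / F z) (ball 0 r) := hF'.div hF h0
  obtain ⟨L, hL0, hL⟩ := hd.isExactOn_ball.with_val_at 0 0
  have h0mem : (0:ℂ) ∈ ball (0:ℂ) r := mem_ball_self hr
  have key : ∀ w ∈ ball (0:ℂ) r, F w * Complex.exp (-L w) = F 0 * Complex.exp (- L 0) := by
    intro w hw
    have hder : ∀ u ∈ ball (0:ℂ) r, HasDerivAt (fun z => F z * Complex.exp (-L z)) 0 u := by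
      intro u hu
      have h1 : HasDerivAt F (deriv F u) u :=
        (hF.differentiableAt (isOpen_ball.mem_nhds hu)).hasDerivAt
      have h2 := (h1.mul (hL u hu).neg.cexp)
      have h3 : deriv F u * Complex.exp (-L u) +
          F u * (Complex.exp (-L u) * -(deriv F u / F u)) = 0 := by
        have := h0 u hu
        field_simp
        ring
      exact h3 ▸ h2
    refine isOpen_ball.is_const_of_deriv_eq_zero (convex_ball (0:ℂ) r).isPreconnected
      (fun u hu => (hder u hu).differentiableAt.differentiableWithinAt)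
      (fun u hu => by simpa using (hder u hu).deriv) hw h0mem
  refine ⟨fun z => s0 * Complex.exp (L z / 2), ?_, by simp [hL0], ?_⟩
  · intro z hz
    exact (((hL z hz).differentiableAt.div_const 2).cexp.const_mul s0).differentiableWithinAt
  · intro z hz
    have hk := key z hz
    rw [hL0, neg_zero, Complex.exp_zero, mul_one] at hk
    have e1 : (s0 * Complex.exp (L z / 2)) ^ 2 = s0 ^ 2 * Complex.exp (L z) := by
      rw [mul_pow, ← Complex.exp_nat_mul]
      congr 2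
      push_cast
      ring
    show (s0 * Complex.exp (L z / 2)) ^ 2 = F z
    rw [e1, hs0, ← hk, mul_assoc, ← Complex.exp_add]
    simp

/-- the quadratic-like data: `z ↦ κ(z)^2 + v` on the ball of radius 4 -/
structure QL (κ : ℂ → ℂ) (v : ℂ) : Prop where
  diff : Differentiable ℂ κ
  lower : ∀ z ∈ ball (0:ℂ) 4, ∀ w ∈ ball (0:ℂ) 4, ‖z - w‖ ≤ 2 * ‖κ z - κ w‖
  der : ∀ z ∈ ball (0:ℂ) 4, deriv κ z ≠ 0
  surj : ∀ s : ℂ, ‖s ^ 2 + v‖ < 4 → ∃ z ∈ ball (0:ℂ) 4, κ z = s

theorem lift {κ : ℂ → ℂ} {v : ℂ} (h : QL κ v) {r : ℝ} (hr : 0 < r) {ζ : ℂ → ℂ}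
    (hζ : DifferentiableOn ℂ ζ (ball 0 r)) (hB : ∀ w ∈ ball (0:ℂ) r, ζ w ∈ ball (0:ℂ) 4)
    (hv : ∀ w ∈ ball (0:ℂ) r, ζ w ≠ v) {z1 : ℂ} (hz1 : z1 ∈ ball (0:ℂ) 4)
    (hf : κ z1 ^ 2 + v = ζ 0) :
    ∃ χ : ℂ → ℂ, DifferentiableOn ℂ χ (ball 0 r) ∧ χ 0 = z1 ∧
      (∀ w ∈ ball (0:ℂ) r, χ w ∈ ball (0:ℂ) 4) ∧
      ∀ w ∈ ball (0:ℂ) r, κ (χ w) ^ 2 + v = ζ w := by
  have h0mem : (0:ℂ) ∈ ball (0:ℂ) r := mem_ball_self hr
  obtain ⟨s, hs, hs0, hs2⟩ := exists_sqrt hr (F := fun w => ζ w - v)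
    (hζ.sub_const v) (fun w hw => sub_ne_zero.2 (hv w hw)) (κ z1) (by rw [← hf]; ring)
  have hinv : ∀ t : ℂ, ∃ z : ℂ, ‖t ^ 2 + v‖ < 4 → z ∈ ball (0:ℂ) 4 ∧ κ z = t := by
    intro t
    by_cases ht : ‖t ^ 2 + v‖ < 4
    · obtain ⟨z, hz, hz2⟩ := h.surj t ht
      exact ⟨z, fun _ => ⟨hz, hz2⟩⟩
    · exact ⟨0, fun h' => absurd h' ht⟩
  choose inv hinv using hinv
  have hsw : ∀ w ∈ ball (0:ℂ) r, ‖s w ^ 2 + v‖ < 4 := by
    intro w hw
    have : s w ^ 2 + v = ζ w := by rw [hs2 w hw]; ring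
    rw [this]
    simpa using hB w hw
  have hopen : IsOpen {t : ℂ | ‖t ^ 2 + v‖ < 4} := by
    apply isOpen_lt _ continuous_const
    fun_prop
  have hinvd : ∀ t : ℂ, ‖t ^ 2 + v‖ < 4 → DifferentiableAt ℂ inv t := by
    intro t ht
    have hcont : ContinuousAt inv t := by
      have hev : ∀ᶠ t' in 𝓝 t, ‖inv t' - inv t‖ ≤ 2 * ‖t' - t‖ := by
        filter_upwards [hopen.mem_nhds ht] with t' ht'
        have a1 := hinv t' ht'
        have a2 := hinv t ht
        have := h.lower _ a1.1 _ a2.1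
        rwa [a1.2, a2.2] at this
      rw [ContinuousAt, tendsto_iff_norm_sub_tendsto_zero]
      refine squeeze_zero' (Eventually.of_forall fun _ => norm_nonneg _) hev ?_
      have : Tendsto (fun t' : ℂ => 2 * ‖t' - t‖) (𝓝 t) (𝓝 (2 * ‖t - t‖)) := by
        apply Continuous.tendsto
        fun_prop
      simpa using this
    have a2 := hinv t ht
    have hd : HasDerivAt κ (deriv κ (inv t)) (inv t) := (h.diff (inv t)).hasDerivAt
    refine (HasDerivAt.of_local_left_inverse hcont hd (h.der _ a2.1) ?_).differentiableAt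
    filter_upwards [hopen.mem_nhds ht] with t' ht'
    exact (hinv t' ht').2
  refine ⟨fun w => inv (s w), ?_, ?_, ?_, ?_⟩
  · intro w hw
    have h1 := hinvd (s w) (hsw w hw)
    have h2 := hs.differentiableAt (isOpen_ball.mem_nhds hw)
    exact (h1.comp w h2).differentiableWithinAt
  · have a1 := hinv (s 0) (hsw 0 h0mem)
    have := h.lower _ a1.1 _ hz1
    rw [a1.2, hs0] at this
    simp only [sub_self, norm_zero, mul_zero] at this
    have h3 : inv (s 0) - z1 = 0 := by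
      have := le_antisymm (by simpa [hs0] using this) (norm_nonneg (inv (s 0) - z1))
      simpa using this
    exact sub_eq_zero.1 h3
  · intro w hw
    exact (hinv (s w) (hsw w hw)).1
  · intro w hw
    show κ (inv (s w)) ^ 2 + v = ζ w
    rw [(hinv (s w) (hsw w hw)).2, hs2 w hw]
    ring

/-- **Attracting cycles attract the critical value.** `q` is a backward orbit of
`f = κ^2 + v`, along which the derivatives of the iterates are not bounded below. -/
theorem attracts {κ : ℂ → ℂ} {v : ℂ} (h : QL κ v) (q : ℕ → ℂ) (hq : ∀ k, q k ∈ ball (0:ℂ) 4)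
    (hqf : ∀ k, κ (q (k + 1)) ^ 2 + v = q k)
    (hM : ∀ c > 0, ∃ k : ℕ, ‖∏ j ∈ Finset.range k, (2 * κ (q (j+1)) * deriv κ (q (j+1)))‖ < c)
    (r : ℝ) (hr : 0 < r) :
    ∃ k : ℕ, ‖(fun z => κ z ^ 2 + v)^[k] v - q 0‖ < r := by
  by_contra hcon
  push Not at hcon
  set f : ℂ → ℂ := fun z => κ z ^ 2 + v with hf
  have hq0 : 0 < 4 - ‖q 0‖ := by
    have := hq 0
    simp only [mem_ball, dist_zero_right] at this
    linarith
  set r' := min r (4 - ‖q 0‖) with hr'
  have hr'0 : 0 < r' := lt_min hr hq0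
  have h0mem : (0:ℂ) ∈ ball (0:ℂ) r' := mem_ball_self hr'0
  have main : ∀ k : ℕ, ∃ χ : ℂ → ℂ, DifferentiableOn ℂ χ (ball 0 r') ∧ χ 0 = q k ∧
      (∀ w ∈ ball (0:ℂ) r', χ w ∈ ball (0:ℂ) 4) ∧
      (∀ w ∈ ball (0:ℂ) r', f^[k] (χ w) = q 0 + w) ∧
      deriv χ 0 * ∏ j ∈ Finset.range k, (2 * κ (q (j+1)) * deriv κ (q (j+1))) = 1 := by
    intro k
    induction k with
    | zero =>
      refine ⟨fun w => q 0 + w, ?_, by simp, ?_, ?_, ?_⟩
      · exact (differentiable_id.const_add (q 0)).differentiableOn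
      · intro w hw
        simp only [mem_ball, dist_zero_right] at hw ⊢
        have h1 : r' ≤ 4 - ‖q 0‖ := min_le_right _ _
        calc ‖q 0 + w‖ ≤ ‖q 0‖ + ‖w‖ := norm_add_le _ _
          _ < 4 := by linarith
      · intro w _
        simp
      · simp
    | succ k ih =>
      obtain ⟨χ, hχ, hχ0, hχB, hχf, hχD⟩ := ih
      have hv : ∀ w ∈ ball (0:ℂ) r', χ w ≠ v := by
        intro w hw hwv
        have h1 := hχf w hw
        rw [hwv] at h1
        have h2 := hcon k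
        rw [h1] at h2
        simp only [add_sub_cancel_left] at h2
        have h3 : ‖w‖ < r' := by simpa using hw
        have h4 : r' ≤ r := min_le_left _ _
        linarith
      obtain ⟨χ', hχ', hχ'0, hχ'B, hχ'f⟩ := lift h hr'0 hχ hχB hv (hq (k+1))
        (by rw [hχ0]; exact hqf k)
      refine ⟨χ', hχ', hχ'0, hχ'B, ?_, ?_⟩
      · intro w hw
        rw [Function.iterate_succ_apply]
        have : f (χ' w) = χ w := hχ'f w hw
        rw [this]
        exact hχf w hw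
      · rw [Finset.prod_range_succ]
        have hd' : HasDerivAt χ' (deriv χ' 0) 0 :=
          (hχ'.differentiableAt (isOpen_ball.mem_nhds h0mem)).hasDerivAt
        have hκ : HasDerivAt κ (deriv κ (χ' 0)) (χ' 0) := (h.diff _).hasDerivAt
        have hc : HasDerivAt (fun w => κ (χ' w) ^ 2 + v)
            (2 * κ (χ' 0) * (deriv κ (χ' 0) * deriv χ' 0)) 0 := by
          have := ((hκ.comp 0 hd').pow 2).add_const v
          simpa using this
        have heq : (fun w => κ (χ' w) ^ 2 + v) =ᶠ[𝓝 0] χ := by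
          filter_upwards [isOpen_ball.mem_nhds h0mem] with w hw
          exact hχ'f w hw
        have hder := (hc.congr_of_eventuallyEq heq.symm).deriv
        rw [hχ'0] at hder
        rw [hder] at hχD
        rw [← hχD]
        ring
  obtain ⟨k, hk⟩ := hM (r' / 8) (by positivity)
  obtain ⟨χ, hχ, hχ0, hχB, hχf, hχD⟩ := main k
  have hsub : closedBall (0:ℂ) (r'/2) ⊆ ball (0:ℂ) r' := closedBall_subset_ball (by linarith)
  have hdc : DiffContOnCl ℂ χ (ball 0 (r'/2)) := by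
    refine ⟨hχ.mono ((ball_subset_closedBall).trans hsub), ?_⟩
    exact (hχ.continuousOn).mono ((closure_ball_subset_closedBall).trans hsub)
  have hC : ∀ z ∈ sphere (0:ℂ) (r'/2), ‖χ z‖ ≤ 4 := by
    intro z hz
    have := hχB z (hsub (sphere_subset_closedBall hz))
    simp only [mem_ball, dist_zero_right] at this
    exact this.le
  have hb := Complex.norm_deriv_le_of_forall_mem_sphere_norm_le (by positivity) hdc hC
  have h1 : ‖deriv χ 0‖ * ‖∏ j ∈ Finset.range k, (2 * κ (q (j+1)) * deriv κ (q (j+1)))‖ = 1 := by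
    rw [← norm_mul, hχD]; simp
  have h2 : (4:ℝ) / (r'/2) = 8 / r' := by field_simp; ring
  rw [h2] at hb
  have h3 : ‖deriv χ 0‖ * ‖∏ j ∈ Finset.range k, (2 * κ (q (j+1)) * deriv κ (q (j+1)))‖
      < 8 / r' * (r' / 8) := by
    have hpos : 0 < ‖deriv χ 0‖ := by
      rcases (norm_nonneg (deriv χ 0)).eq_or_lt with h | h
      · rw [← h] at h1; simp at h1
      · exact h
    calc ‖deriv χ 0‖ * ‖∏ j ∈ Finset.range k, (2 * κ (q (j+1)) * deriv κ (q (j+1)))‖
        < ‖deriv χ 0‖ * (r' / 8) := by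
          exact mul_lt_mul_of_pos_left hk hpos
      _ ≤ 8 / r' * (r' / 8) := mul_le_mul_of_nonneg_right hb (by positivity)
  rw [h1] at h3
  have h4 : 8 / r' * (r' / 8) = 1 := by field_simp
  rw [h4] at h3
  exact lt_irrefl _ h3

end Pool.Agent.Cremer51
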