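import Mathlib
import Pool.Agent.Cremer51.Lift

/-!
# For `|λ| = 1` all cycles of `λ z + z^2` other than `0` are repelling.
-/

set_option autoImplicit false

open Metric Set Filter Topology

namespace Pool.Agent.Cremer51

/-- Hermite interpolation: a polynomial vanishing on a finite set with derivative `-1` there -/
theorem exists_herm (S : Finset ℂ) : ∃ h : Polynomial ℂ, ∀ s ∈ S, h.eval s = 0 ∧
    (Polynomial.derivative h).eval s = -1 := by
  classical
  set Q : Polynomial ℂ := ∏ s ∈ S, (Polynomial.X - Polynomial.C s) with hQ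
  have hQ0 : ∀ s ∈ S, Q.eval s = 0 := by
    intro s hs
    rw [hQ, Polynomial.eval_prod]
    exact Finset.prod_eq_zero hs (by simp)
  have hQ' : ∀ s ∈ S, (Polynomial.derivative Q).eval s ≠ 0 := by
    intro s hs
    have hsep : Q.Separable := Polynomial.separable_prod_X_sub_C_iff'.2 (fun x _ y _ h => h)
    have h1 : (Polynomial.aeval s) Q = 0 := by
      rw [Polynomial.coe_aeval_eq_eval]; exact hQ0 s hs
    have h2 := hsep.aeval_derivative_ne_zero h1
    rwa [Polynomial.coe_aeval_eq_eval] at h2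
  set A : Polynomial ℂ := Lagrange.interpolate S id
    (fun s => 1 / (Polynomial.derivative Q).eval s) with hA
  have hA' : ∀ s ∈ S, A.eval s = 1 / (Polynomial.derivative Q).eval s := by
    intro s hs
    have := Lagrange.eval_interpolate_at_node (s := S) (v := id)
      (r := fun s => 1 / (Polynomial.derivative Q).eval s) (fun x _ y _ h => h) hs
    exact this
  refine ⟨-(Q * A), fun s hs => ⟨?_, ?_⟩⟩
  · simp [hQ0 s hs]
  · rw [Polynomial.derivative_neg, Polynomial.derivative_mul, Polynomial.eval_neg,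
      Polynomial.eval_add, Polynomial.eval_mul, Polynomial.eval_mul, hQ0 s hs, hA' s hs]
    have := hQ' s hs
    field_simp
    ring

theorem bound_poly (h : Polynomial ℂ) : ∃ M > 0, (∀ z ∈ closedBall (0:ℂ) 4, ‖h.eval z‖ ≤ M) ∧
    ∀ z ∈ closedBall (0:ℂ) 4, ‖(Polynomial.derivative h).eval z‖ ≤ M := by
  have hK : IsCompact (closedBall (0:ℂ) 4) := isCompact_closedBall _ _
  obtain ⟨C1, hC1⟩ := hK.exists_bound_of_continuousOn (f := fun z => h.eval z)
    (h.continuous.continuousOn)
  obtain ⟨C2, hC2⟩ := hK.exists_bound_of_continuousOn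
    (f := fun z => (Polynomial.derivative h).eval z)
    ((Polynomial.derivative h).continuous.continuousOn)
  refine ⟨max 1 (max C1 C2), by positivity, fun z hz => ?_, fun z hz => ?_⟩
  · exact (hC1 z hz).trans ((le_max_left _ _).trans (le_max_right _ _))
  · exact (hC2 z hz).trans ((le_max_right _ _).trans (le_max_right _ _))

/-- the perturbed `κ` -/
theorem ql_pert (lam : ℂ) (hl : ‖lam‖ = 1) (h : Polynomial ℂ) {M ε : ℝ} (hM : 0 < M)
    (h1 : ∀ z ∈ closedBall (0:ℂ) 4, ‖h.eval z‖ ≤ M)
    (h2 : ∀ z ∈ closedBall (0:ℂ) 4, ‖(Polynomial.derivative h).eval z‖ ≤ M)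
    (hε : 0 < ε) (hεM : ε * M ≤ 1 / 10) :
    QL (fun z => z + lam / 2 + ε * h.eval z) (-(lam ^ 2 / 4)) := by
  have hder : ∀ z : ℂ, HasDerivAt (fun z => z + lam / 2 + ε * h.eval z)
      (1 + ε * (Polynomial.derivative h).eval z) z := by
    intro z
    have a1 : HasDerivAt (fun z : ℂ => z + lam / 2) 1 z := (hasDerivAt_id z).add_const _
    have a2 := (h.hasDerivAt z).const_mul (ε : ℂ)
    exact a1.add a2
  have hlip : ∀ z ∈ closedBall (0:ℂ) 4, ∀ w ∈ closedBall (0:ℂ) 4,
      ‖(ε:ℂ) * h.eval z - ε * h.eval w‖ ≤ 1 / 10 * ‖z - w‖ := by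
    intro z hz w hw
    have := (convex_closedBall (0:ℂ) 4).norm_image_sub_le_of_norm_hasDerivWithin_le
      (f := fun z => (ε:ℂ) * h.eval z) (f' := fun z => ε * (Polynomial.derivative h).eval z)
      (C := 1 / 10)
      (fun x _ => ((h.hasDerivAt x).const_mul (ε : ℂ)).hasDerivWithinAt)
      (fun x hx => by
        rw [norm_mul, Complex.norm_real, Real.norm_of_nonneg hε.le]
        calc ε * ‖(Polynomial.derivative h).eval x‖ ≤ ε * M :=
              mul_le_mul_of_nonneg_left (h2 x hx) hε.le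
          _ ≤ 1 / 10 := hεM) hw hz
    exact this
  refine ⟨fun z => (hder z).differentiableAt, ?_, ?_, ?_⟩
  · intro z hz w hw
    have e : z - w = (z + lam / 2 + ε * h.eval z - (w + lam / 2 + ε * h.eval w))
        - ((ε:ℂ) * h.eval z - ε * h.eval w) := by ring
    have a := hlip z (ball_subset_closedBall hz) w (ball_subset_closedBall hw)
    have b : ‖z - w‖ ≤ ‖z + lam / 2 + ε * h.eval z - (w + lam / 2 + ε * h.eval w)‖
        + ‖(ε:ℂ) * h.eval z - ε * h.eval w‖ := by
      conv_lhs => rw [e]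
      exact norm_sub_le _ _
    have c := norm_nonneg (z - w)
    linarith
  · intro z hz
    rw [(hder z).deriv]
    intro h0
    have a : ‖(ε:ℂ) * (Polynomial.derivative h).eval z‖ ≤ 1 / 10 := by
      rw [norm_mul, Complex.norm_real, Real.norm_of_nonneg hε.le]
      exact (mul_le_mul_of_nonneg_left (h2 z (ball_subset_closedBall hz)) hε.le).trans hεM
    have b : (ε:ℂ) * (Polynomial.derivative h).eval z = -1 := by linear_combination h0
    rw [b, norm_neg, norm_one] at a
    norm_num at a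
  · intro s hs
    have hs2 : ‖s‖ ≤ 21 / 10 := by
      have a : ‖s ^ 2‖ ≤ ‖s ^ 2 + -(lam ^ 2 / 4)‖ + ‖lam ^ 2 / 4‖ := by
        have := norm_sub_le (s ^ 2 + -(lam ^ 2 / 4)) (-(lam ^ 2 / 4))
        rw [add_sub_cancel_right, norm_neg] at this
        exact this
      have b : ‖lam ^ 2 / 4‖ = 1 / 4 := by
        rw [norm_div, norm_pow, hl]; norm_num
      rw [b, norm_pow] at a
      by_contra hcon
      push Not at hcon
      nlinarith [norm_nonneg s]
    set T : ℂ → ℂ := fun z => s - lam / 2 - ε * h.eval z with hT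
    have hmaps : MapsTo T (closedBall (0:ℂ) 3) (closedBall (0:ℂ) 3) := by
      intro z hz
      have hz4 : z ∈ closedBall (0:ℂ) 4 := closedBall_subset_closedBall (by norm_num) hz
      simp only [mem_closedBall, dist_zero_right, hT]
      have a : ‖(ε:ℂ) * h.eval z‖ ≤ 1 / 10 := by
        rw [norm_mul, Complex.norm_real, Real.norm_of_nonneg hε.le]
        exact (mul_le_mul_of_nonneg_left (h1 z hz4) hε.le).trans hεM
      have b : ‖lam / 2‖ = 1 / 2 := by rw [norm_div, hl]; norm_num
      calc ‖s - lam / 2 - ε * h.eval z‖ ≤ ‖s - lam / 2‖ + ‖(ε:ℂ) * h.eval z‖ := norm_sub_le _ _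
        _ ≤ ‖s‖ + ‖lam / 2‖ + ‖(ε:ℂ) * h.eval z‖ := by gcongr; exact norm_sub_le _ _
        _ ≤ 3 := by rw [b]; linarith
    have hcontr : ContractingWith (1/2) (hmaps.restrict T (closedBall (0:ℂ) 3) (closedBall (0:ℂ) 3)) := by
      refine ⟨by norm_num, ?_⟩
      apply LipschitzWith.of_dist_le_mul
      intro x y
      have hx4 : (x:ℂ) ∈ closedBall (0:ℂ) 4 := closedBall_subset_closedBall (by norm_num) x.2
      have hy4 : (y:ℂ) ∈ closedBall (0:ℂ) 4 := closedBall_subset_closedBall (by norm_num) y.2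
      have a := hlip y hy4 x hx4
      have e : dist (hmaps.restrict T (closedBall (0:ℂ) 3) (closedBall (0:ℂ) 3) x)
          (hmaps.restrict T (closedBall (0:ℂ) 3) (closedBall (0:ℂ) 3) y)
          = ‖(ε:ℂ) * h.eval (y:ℂ) - ε * h.eval (x:ℂ)‖ := by
        rw [Subtype.dist_eq, MapsTo.val_restrict_apply, MapsTo.val_restrict_apply, dist_eq_norm]
        congr 1
        simp only [hT]
        ring
      rw [e]
      have e2 : dist x y = ‖(y:ℂ) - x‖ := by
        rw [dist_comm, Subtype.dist_eq, dist_eq_norm]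
      rw [e2]
      refine a.trans ?_
      have := norm_nonneg ((y:ℂ) - x)
      have hc : ((1/2 : NNReal) : ℝ) = 1/2 := by norm_num
      rw [hc]
      linarith
    obtain ⟨y, hy, hyf, -⟩ := hcontr.exists_fixedPoint' (isClosed_closedBall.isComplete) hmaps
      (x := 0) (by simp) (edist_ne_top _ _)
    refine ⟨y, ?_, ?_⟩
    · simp only [mem_closedBall, dist_zero_right, mem_ball] at hy ⊢
      linarith
    · have : T y = y := hyf
      simp only [hT] at this
      show y + lam / 2 + ε * h.eval y = s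
      linear_combination (-1 : ℂ) * this

theorem prod_window (a : ℕ → ℂ) (n : ℕ) (ha : ∀ k, a (k + n) = a k) (m : ℕ) :
    ∏ j ∈ Finset.range (n * m), a j = (∏ j ∈ Finset.range n, a j) ^ m := by
  have hper : ∀ m j, a (n * m + j) = a j := by
    intro m j
    induction m with
    | zero => simp
    | succ m ih =>
      rw [← ih, ← ha (n * m + j)]
      congr 1
      ring
  induction m with
  | zero => simp
  | succ m ih =>
    rw [Nat.mul_succ, Finset.prod_range_add, ih, pow_succ]
    congr 1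
    exact Finset.prod_congr rfl fun j _ => hper m j

/-- **For `|λ| = 1` every cycle of `λ z + z^2` in the unit disc other than `0` is repelling.**
The cycle is given as a periodic backward orbit `q`. -/
theorem repelling (lam : ℂ) (hl : ‖lam‖ = 1) (n : ℕ) (hn : 0 < n) (q : ℕ → ℂ)
    (hq : ∀ k, ‖q k‖ < 1) (hqf : ∀ k, lam * q (k + 1) + q (k + 1) ^ 2 = q k)
    (hper : ∀ k, q (k + n) = q k) (hne : ∀ k, q k ≠ 0) :
    1 < ‖∏ j ∈ Finset.range n, (lam + 2 * q (j + 1))‖ := by
  classical
  by_contra hcon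
  push Not at hcon
  set S : Finset ℂ := insert 0 ((Finset.range n).image q) with hS
  have hperm : ∀ m j, q (n * m + j) = q j := by
    intro m j
    induction m with
    | zero => simp
    | succ m ih =>
      rw [← ih, ← hper (n * m + j)]
      congr 1
      ring
  have hqS : ∀ k, q k ∈ S := by
    intro k
    rw [hS]
    apply Finset.mem_insert_of_mem
    rw [Finset.mem_image]
    refine ⟨k % n, Finset.mem_range.2 (Nat.mod_lt _ hn), ?_⟩
    conv_rhs => rw [← Nat.div_add_mod k n]
    rw [hperm]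
  have h0S : (0:ℂ) ∈ S := Finset.mem_insert_self _ _
  obtain ⟨h, hh⟩ := exists_herm S
  obtain ⟨M, hM, hM1, hM2⟩ := bound_poly h
  set ε : ℝ := min (1/2) (1 / (10 * M)) with hε
  have hε0 : 0 < ε := lt_min (by norm_num) (by positivity)
  have hε1 : ε ≤ 1/2 := min_le_left _ _
  have hεM : ε * M ≤ 1 / 10 := by
    have : ε ≤ 1 / (10 * M) := min_le_right _ _
    calc ε * M ≤ 1 / (10 * M) * M := mul_le_mul_of_nonneg_right this hM.le
      _ = 1 / 10 := by field_simp
  have hQL := ql_pert lam hl h hM hM1 hM2 hε0 hεM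
  set κ : ℂ → ℂ := fun z => z + lam / 2 + ε * h.eval z with hκ
  set v : ℂ := -(lam ^ 2 / 4) with hv
  set f : ℂ → ℂ := fun z => κ z ^ 2 + v with hf
  have hder : ∀ z : ℂ, HasDerivAt κ (1 + ε * (Polynomial.derivative h).eval z) z := by
    intro z
    have a1 : HasDerivAt (fun z : ℂ => z + lam / 2) 1 z := (hasDerivAt_id z).add_const _
    have a2 := (h.hasDerivAt z).const_mul (ε : ℂ)
    exact a1.add a2
  -- values and derivatives on S
  have hκS : ∀ s ∈ S, κ s = s + lam / 2 := by
    intro s hs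
    simp [hκ, (hh s hs).1]
  have hfS : ∀ s ∈ S, f s = lam * s + s ^ 2 := by
    intro s hs
    simp only [hf, hκS s hs, hv]
    ring
  have hκ'S : ∀ s ∈ S, deriv κ s = 1 - ε := by
    intro s hs
    rw [(hder s).deriv, (hh s hs).2]
    ring
  have hfac : ∀ s ∈ S, 2 * κ s * deriv κ s = (lam + 2 * s) * (1 - ε) := by
    intro s hs
    rw [hκS s hs, hκ'S s hs]
    ring
  have hn1 : ‖(1 - (ε:ℂ))‖ = 1 - ε := by
    have : (1 - (ε:ℂ)) = ((1 - ε : ℝ) : ℂ) := by push_cast; ring
    rw [this, Complex.norm_real, Real.norm_of_nonneg (by linarith)]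
  -- the orbit of `v` accumulates at `0`
  have hA0 := attracts hQL (fun _ => 0) (fun k => by simp) (fun k => by
      have := hfS 0 h0S
      simp only [hf] at this
      simpa using this) (by
      intro c hc
      obtain ⟨m, hm⟩ := exists_pow_lt_of_lt_one hc (show (1 - ε) < 1 by linarith)
      refine ⟨m, ?_⟩
      rw [Finset.prod_const, Finset.card_range, norm_pow, hfac 0 h0S]
      simpa [hl, hn1] using hm)
  -- the orbit of `v` accumulates at `q 0`
  have hAq := attracts hQL q (fun k => by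
      have := hq k
      simp only [mem_ball, dist_zero_right]
      linarith) (fun k => by
      have := hfS (q (k+1)) (hqS _)
      simp only [hf] at this
      rw [this, hqf k]) (by
      intro c hc
      have hlt : ‖∏ j ∈ Finset.range n, (2 * κ (q (j+1)) * deriv κ (q (j+1)))‖ < 1 := by
        have e : ∏ j ∈ Finset.range n, (2 * κ (q (j+1)) * deriv κ (q (j+1)))
            = (∏ j ∈ Finset.range n, (lam + 2 * q (j+1))) * (1 - ε) ^ n := by
          rw [Finset.prod_congr rfl fun j _ => hfac (q (j+1)) (hqS _), Finset.prod_mul_distrib,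
            Finset.prod_const, Finset.card_range]
        rw [e, norm_mul, norm_pow, hn1]
        have h1 : (1 - ε) ^ n < 1 := pow_lt_one₀ (by linarith) (by linarith) hn.ne'
        have h0 : 0 ≤ (1 - ε) ^ n := pow_nonneg (by linarith) _
        calc ‖∏ j ∈ Finset.range n, (lam + 2 * q (j+1))‖ * (1 - ε) ^ n
            ≤ 1 * (1 - ε) ^ n := mul_le_mul_of_nonneg_right hcon h0
          _ < 1 := by linarith
      obtain ⟨m, hm⟩ := exists_pow_lt_of_lt_one hc hlt
      refine ⟨n * m, ?_⟩
      rw [prod_window (fun j => 2 * κ (q (j+1)) * deriv κ (q (j+1))) n (fun k => by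
        have : q (k + n + 1) = q (k + 1) := by
          rw [show k + n + 1 = (k + 1) + n by ring, hper]
        simp only [this]), norm_pow]
      exact hm)
  -- trap at 0
  have htrap : ∃ δ > 0, ∀ z, ‖z‖ < δ → ‖f z‖ ≤ ‖z‖ := by
    have hd : HasDerivAt f (lam * (1 - ε)) 0 := by
      have := ((hder 0).pow 2).add_const v
      have e : (2:ℂ) * κ 0 * (1 + ε * (Polynomial.derivative h).eval 0) = lam * (1 - ε) := by
        rw [hκS 0 h0S, (hh 0 h0S).2]
        ring
      have e' : ((2:ℕ):ℂ) * κ 0 ^ (2-1) * (1 + ε * (Polynomial.derivative h).eval 0)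
          = lam * (1 - ε) := by
        rw [← e]; norm_num
      rw [e'] at this
      exact this
    have hlo := hd.isLittleO
    have := hlo.def (c := ε) hε0
    have hf0 : f 0 = 0 := by rw [hfS 0 h0S]; simp
    rw [Metric.eventually_nhds_iff] at this
    obtain ⟨δ, hδ, hδ2⟩ := this
    refine ⟨δ, hδ, fun z hz => ?_⟩
    have h1 := hδ2 (y := z) (by simpa using hz)
    rw [hf0, sub_zero, sub_zero, smul_eq_mul] at h1
    have h2 : ‖f z‖ ≤ ‖f z - z * (lam * (1 - ε))‖ + ‖z * (lam * (1 - ε))‖ := by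
      have := norm_add_le (f z - z * (lam * (1 - ε))) (z * (lam * (1 - ε)))
      rwa [sub_add_cancel] at this
    rw [norm_mul, norm_mul, hl, hn1] at h2
    nlinarith [norm_nonneg z]
  obtain ⟨δ0, hδ0, htr⟩ := htrap
  -- lower bound for the cycle
  obtain ⟨δ1, hδ1, hδ1q⟩ : ∃ δ1 > 0, ∀ k, δ1 ≤ ‖q k‖ := by
    have hfin : (S.erase 0).Nonempty := ⟨q 0, Finset.mem_erase.2 ⟨hne 0, hqS 0⟩⟩
    obtain ⟨s, hs, hmin⟩ := Finset.exists_min_image (S.erase 0) (fun s => ‖s‖) hfin
    refine ⟨‖s‖, norm_pos_iff.2 (Finset.mem_erase.1 hs).1, fun k => ?_⟩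
    exact hmin (q k) (Finset.mem_erase.2 ⟨hne k, hqS k⟩)
  set δ := min δ0 δ1 / 2 with hδ
  have hδpos : 0 < δ := by positivity
  have hδlt0 : δ < δ0 := by
    have : min δ0 δ1 ≤ δ0 := min_le_left _ _
    have := lt_min hδ0 hδ1
    rw [hδ]; linarith
  have hδlt1 : δ < δ1 := by
    have : min δ0 δ1 ≤ δ1 := min_le_right _ _
    have := lt_min hδ0 hδ1
    rw [hδ]; linarith
  obtain ⟨k1, hk1⟩ := hA0 δ hδpos
  rw [sub_zero] at hk1
  have hstay : ∀ m, ‖f^[k1 + m] v‖ < δ := by
    intro m
    induction m with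
    | zero => simpa using hk1
    | succ m ih =>
      rw [← add_assoc, Function.iterate_succ_apply']
      exact (htr _ (ih.trans hδlt0)).trans_lt ih
  -- some iterate equals `q 0`
  have hex : ∃ k ≤ k1, f^[k] v = q 0 := by
    by_contra hno
    push Not at hno
    have hpos : ∃ r > 0, ∀ k ≤ k1, r ≤ ‖f^[k] v - q 0‖ := by
      obtain ⟨k0, hk0, hmin⟩ := Finset.exists_min_image (Finset.range (k1+1))
        (fun k => ‖f^[k] v - q 0‖) ⟨0, by simp⟩
      refine ⟨‖f^[k0] v - q 0‖, ?_, ?_⟩
      · rw [gt_iff_lt, norm_pos_iff, sub_ne_zero]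
        exact hno k0 (by simpa [Nat.lt_succ_iff] using hk0)
      · intro k hk
        exact hmin k (by simpa [Nat.lt_succ_iff] using hk)
    obtain ⟨r, hr, hrk⟩ := hpos
    obtain ⟨k, hk⟩ := hAq (min r (δ1 - δ)) (lt_min hr (by linarith))
    have hk' : k1 < k := by
      by_contra hle
      push Not at hle
      have := hrk k hle
      have h2 := hk.trans_le (min_le_left _ _)
      exact absurd h2 (not_lt.2 this)
    obtain ⟨m, rfl⟩ := Nat.exists_eq_add_of_le hk'.le
    have h1 := hstay m
    have h2 := hk.trans_le (min_le_right _ _)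
    have h3 := hδ1q 0
    have h4 : ‖q 0‖ ≤ ‖f^[k1 + m] v - q 0‖ + ‖f^[k1 + m] v‖ := by
      have := norm_sub_le (f^[k1 + m] v) (f^[k1 + m] v - q 0)
      rw [sub_sub_cancel] at this
      linarith
    linarith
  obtain ⟨k, hk, hkq⟩ := hex
  -- forward orbit of `q 0` stays in the cycle
  have hcyc : ∀ m, ∃ j, f^[m] (q 0) = q j := by
    intro m
    induction m with
    | zero => exact ⟨0, rfl⟩
    | succ m ih =>
      obtain ⟨j, hj⟩ := ih
      rw [Function.iterate_succ_apply', hj]
      obtain ⟨n', rfl⟩ := Nat.exists_eq_succ_of_ne_zero hn.ne'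
      refine ⟨j + n', ?_⟩
      rw [hfS _ (hqS j), ← hqf (j + n'), ← hper j]
      rfl
  obtain ⟨m, rfl⟩ := Nat.exists_eq_add_of_le hk
  obtain ⟨j, hj⟩ := hcyc m
  have h1 : f^[k + m] v = q j := by
    rw [add_comm, Function.iterate_add_apply, hkq, hj]
  have h2 := hδ1q j
  rw [← h1] at h2
  linarith

end Pool.Agent.Cremer51
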