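import Mathlib

/-!
# Small cycles of `λ z + z^2` for very well approximable `λ`; such `λ` are generic.
-/

set_option autoImplicit false

open Polynomial Set Filter Topology

namespace Pool.Agent.Cremer51

/-- `P_λ(z) = λ z + z^2` -/
noncomputable def quad (lam : ℂ) (z : ℂ) : ℂ := lam * z + z ^ 2

noncomputable def F (lam : ℂ) : ℕ → ℂ[X]
  | 0 => X
  | k+1 => (F lam k)^2 + C lam * F lam k

theorem F_eval (lam z : ℂ) (k : ℕ) : (F lam k).eval z = (quad lam)^[k] z := by
  induction k with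
  | zero => simp [F]
  | succ k ih =>
    rw [Function.iterate_succ_apply', ← ih]
    simp only [F, quad, eval_add, eval_pow, eval_mul, eval_C]
    ring

theorem F_monic_deg (lam : ℂ) (k : ℕ) : (F lam k).Monic ∧ (F lam k).natDegree = 2^k := by
  induction k with
  | zero => simp [F, monic_X]
  | succ k ih =>
    obtain ⟨hm, hd⟩ := ih
    have hm2 : ((F lam k)^2).Monic := hm.pow 2
    have hd2 : ((F lam k)^2).natDegree = 2^(k+1) := by rw [hm.natDegree_pow, hd]; ring
    have hlt' : (C lam * F lam k).natDegree < ((F lam k)^2).natDegree := by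
      rw [hd2]
      refine (natDegree_C_mul_le _ _).trans_lt ?_
      rw [hd]
      exact Nat.pow_lt_pow_right (by norm_num) (by omega)
    have hlt := degree_lt_degree hlt'
    refine ⟨hm2.add_of_left hlt, ?_⟩
    show ((F lam k)^2 + C lam * F lam k).natDegree = 2^(k+1)
    rw [natDegree_add_eq_left_of_natDegree_lt hlt', hd2]

theorem F_eval_zero (lam : ℂ) (k : ℕ) : (F lam k).eval 0 = 0 := by
  induction k with
  | zero => simp [F]
  | succ k ih => simp [F, ih]

theorem F_deriv_zero (lam : ℂ) (k : ℕ) : (derivative (F lam k)).eval 0 = lam ^ k := by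
  induction k with
  | zero => simp [F]
  | succ k ih =>
    simp only [F, derivative_add, derivative_pow, derivative_mul, derivative_C, eval_add, eval_mul,
      eval_pow, F_eval_zero, ih, eval_C]
    simp
    ring

theorem prod_lower (c : ℝ) (hc : 0 ≤ c) (m : Multiset ℂ) (h : ∀ z ∈ m, c ≤ ‖z‖) :
    c ^ (Multiset.card m) ≤ ‖m.prod‖ := by
  induction m using Multiset.induction_on with
  | empty => simp
  | cons a s ih =>
    rw [Multiset.card_cons, Multiset.prod_cons, norm_mul, pow_succ, mul_comm]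
    apply mul_le_mul (h a (Multiset.mem_cons_self a s))
      (ih fun z hz => h z (Multiset.mem_cons_of_mem hz)) (pow_nonneg hc _) (norm_nonneg _)

theorem small_root (lam : ℂ) (n : ℕ) (hn : 0 < n) (hl : lam ^ n ≠ 1) (c : ℝ) (hc : 0 < c)
    (h : ‖lam ^ n - 1‖ < c ^ (2 ^ n - 1)) :
    ∃ z : ℂ, z ≠ 0 ∧ (quad lam)^[n] z = z ∧ ‖z‖ < c := by
  obtain ⟨hm, hd⟩ := F_monic_deg lam n
  set R : ℂ[X] := F lam n - X with hR
  have h2 : 1 < 2 ^ n := Nat.one_lt_two_pow hn.ne'
  have hlt' : (X : ℂ[X]).natDegree < (F lam n).natDegree := by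
    rw [hd, natDegree_X]; exact h2
  have hRm : R.Monic := hm.sub_of_left (degree_lt_degree hlt')
  have hRd : R.natDegree = 2 ^ n := by
    rw [hR, natDegree_sub_eq_left_of_natDegree_lt hlt', hd]
  set s := R.divX with hs
  have hsd : s.natDegree = 2 ^ n - 1 := by
    rw [hs, natDegree_divX_eq_natDegree_tsub_one, hRd]
  have hsm : s.Monic := by
    rw [Monic, leadingCoeff, hsd, hs, coeff_divX]
    have : 2 ^ n - 1 + 1 = R.natDegree := by rw [hRd]; omega
    rw [this]
    exact hRm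
  have hs0 : s.coeff 0 = lam ^ n - 1 := by
    rw [hs, coeff_divX, hR, coeff_sub]
    have h1 : (F lam n).coeff 1 = lam ^ n := by
      have := coeff_derivative (F lam n) 0
      rw [coeff_zero_eq_eval_zero, F_deriv_zero] at this
      simpa using this.symm
    simp [h1]
  have hspl : s.Splits := IsAlgClosed.splits s
  have hprod := hspl.coeff_zero_eq_prod_roots_of_monic hsm
  have hcard : Multiset.card s.roots = 2 ^ n - 1 := by
    rw [← hsd]; exact (hspl.natDegree_eq_card_roots).symm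
  have hex : ∃ z ∈ s.roots, ‖z‖ < c := by
    by_contra hcon
    push Not at hcon
    have h1 := prod_lower c hc.le s.roots hcon
    rw [hcard] at h1
    have h3 : ‖s.coeff 0‖ = ‖s.roots.prod‖ := by
      rw [hprod, norm_mul]; simp
    rw [← h3, hs0] at h1
    linarith
  obtain ⟨z, hz, hzc⟩ := hex
  have hroot : s.eval z = 0 := (mem_roots'.1 hz).2
  have hReval : R.eval z = 0 := by
    have h1 := divX_mul_X_add R
    have h0 : R.coeff 0 = 0 := by
      rw [coeff_zero_eq_eval_zero, hR, eval_sub, F_eval_zero]; simp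
    rw [h0] at h1
    rw [← h1]
    simp [← hs, hroot]
  refine ⟨z, ?_, ?_, hzc⟩
  · rintro rfl
    rw [← coeff_zero_eq_eval_zero, hs0] at hroot
    exact hl (sub_eq_zero.1 hroot)
  · rw [hR, eval_sub, F_eval, eval_X] at hReval
    exact sub_eq_zero.1 hReval

/-- arbitrarily small nontrivial cycles (forward orbits `q`) -/
def SmallCycles (f : ℂ → ℂ) : Prop :=
  ∀ δ > 0, ∃ n > 0, ∃ q : ℕ → ℂ, (∀ k, ‖q k‖ < δ) ∧ (∀ k, q k ≠ 0) ∧
    (∀ k, q (k + n) = q k) ∧ ∀ k, f (q k) = q (k + 1)

/-- the small constants -/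
noncomputable def del (n : ℕ) : ℝ := (1 / ((n + 1) * 2 ^ n)) ^ (2 ^ n - 1)

theorem del_pos (n : ℕ) : 0 < del n := by
  unfold del; positivity

theorem iterate_bound (lam : ℂ) (hl : ‖lam‖ = 1) (z : ℂ) (n : ℕ) (hz : 2 ^ n * ‖z‖ ≤ 1) (j : ℕ)
    (hj : j ≤ n) : ‖(quad lam)^[j] z‖ ≤ 2 ^ j * ‖z‖ := by
  induction j with
  | zero => simp
  | succ j ih =>
    have ih' := ih (by omega)
    rw [Function.iterate_succ_apply']
    set w := (quad lam)^[j] z
    have hw1 : ‖w‖ ≤ 1 := by
      refine ih'.trans ?_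
      refine le_trans ?_ hz
      apply mul_le_mul_of_nonneg_right _ (norm_nonneg _)
      exact pow_le_pow_right₀ (by norm_num) (by omega)
    have h1 : ‖quad lam w‖ ≤ ‖w‖ + ‖w‖ ^ 2 := by
      unfold quad
      refine (norm_add_le _ _).trans ?_
      rw [norm_mul, hl, norm_pow, one_mul]
    calc ‖quad lam w‖ ≤ ‖w‖ + ‖w‖ ^ 2 := h1
      _ ≤ 2 * ‖w‖ := by nlinarith [norm_nonneg w]
      _ ≤ 2 * (2 ^ j * ‖z‖) := by linarith
      _ = 2 ^ (j + 1) * ‖z‖ := by ring

theorem smallCycles (lam : ℂ) (hl : ‖lam‖ = 1) (hroot : ∀ n > 0, lam ^ n ≠ 1)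
    (h : ∀ N : ℕ, ∃ n > N, ‖lam ^ n - 1‖ < del n) : SmallCycles (quad lam) := by
  intro δ hδ
  obtain ⟨N, hN⟩ := exists_nat_one_div_lt hδ
  obtain ⟨n, hn, hdel⟩ := h N
  have hn0 : 0 < n := by omega
  obtain ⟨z, hz0, hzf, hzc⟩ := small_root lam n hn0 (hroot n hn0) (1 / ((n + 1) * 2 ^ n))
    (by positivity) hdel
  have hper : ∀ k, (quad lam)^[k + n] z = (quad lam)^[k] z := by
    intro k
    rw [Function.iterate_add_apply, hzf]
  have hpow : (2:ℝ) ^ n * ‖z‖ < 1 / (n + 1) := by
    have h2 : (0:ℝ) < 2 ^ n := by positivity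
    calc (2:ℝ) ^ n * ‖z‖ < 2 ^ n * (1 / ((n + 1) * 2 ^ n)) := mul_lt_mul_of_pos_left hzc h2
      _ = 1 / (n + 1) := by field_simp
  have hle1 : (1:ℝ) / (n + 1) ≤ 1 := by
    rw [div_le_one (by positivity)]
    have : (0:ℝ) ≤ n := Nat.cast_nonneg n
    linarith
  have hmul : ∀ m k, (quad lam)^[n * m + k] z = (quad lam)^[k] z := by
    intro m k
    induction m with
    | zero => simp
    | succ m ih =>
      rw [← ih, ← hper (n * m + k), show n * (m + 1) + k = n * m + k + n by ring]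
  refine ⟨n, hn0, fun k => (quad lam)^[k] z, ?_, ?_, hper, ?_⟩
  · intro k
    have h1 : (quad lam)^[k] z = (quad lam)^[k % n] z := by
      conv_lhs => rw [← Nat.div_add_mod k n]
      rw [hmul]
    have h2 := iterate_bound lam hl z n (hpow.le.trans hle1) (k % n) (Nat.mod_lt _ hn0).le
    show ‖(quad lam)^[k] z‖ < δ
    rw [h1]
    have h3 : (2:ℝ) ^ (k % n) * ‖z‖ ≤ 2 ^ n * ‖z‖ := by
      apply mul_le_mul_of_nonneg_right _ (norm_nonneg _)
      exact pow_le_pow_right₀ (by norm_num) (Nat.mod_lt _ hn0).le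
    have h4 : (1:ℝ) / (n + 1) ≤ 1 / (N + 1) := by
      apply one_div_le_one_div_of_le (by positivity)
      have : (N:ℝ) < n := by exact_mod_cast hn
      linarith
    linarith
  · intro k h0
    have h1 : (quad lam)^[n * (k + 1)] z = z := by
      have := hmul (k + 1) 0
      simpa using this
    have hle : k ≤ n * (k + 1) := by nlinarith
    obtain ⟨m, hm⟩ := Nat.exists_eq_add_of_le hle
    have h2 : (quad lam)^[n * (k+1)] z = 0 := by
      rw [hm, add_comm, Function.iterate_add_apply]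
      have h0' : (quad lam)^[k] z = 0 := h0
      rw [h0']
      have : ∀ m, (quad lam)^[m] 0 = 0 := by
        intro m
        rw [← F_eval, F_eval_zero]
      exact this m
    exact hz0 (h1 ▸ h2)
  · intro k
    show quad lam ((quad lam)^[k] z) = (quad lam)^[k+1] z
    rw [Function.iterate_succ_apply']

/-! ### genericity -/

noncomputable def E (θ : ℝ) : ℂ := Complex.exp (2 * (Real.pi : ℂ) * Complex.I * (θ : ℂ))

theorem continuous_E : Continuous E := by
  unfold E; fun_prop

theorem norm_E (θ : ℝ) : ‖E θ‖ = 1 := by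
  unfold E
  have : 2 * (Real.pi : ℂ) * Complex.I * (θ : ℂ) = ((2 * Real.pi * θ : ℝ) : ℂ) * Complex.I := by
    push_cast; ring
  rw [this, Complex.norm_exp_ofReal_mul_I]

theorem E_pow (θ : ℝ) (n : ℕ) : E θ ^ n = Complex.exp (2 * (Real.pi : ℂ) * Complex.I * ((n * θ : ℝ) : ℂ)) := by
  unfold E
  rw [← Complex.exp_nat_mul]
  congr 1
  push_cast
  ring

theorem E_pow_ne_one (θ : ℝ) (hθ : Irrational θ) (n : ℕ) (hn : 0 < n) : E θ ^ n ≠ 1 := by
  rw [E_pow, Ne, Complex.exp_eq_one_iff]
  rintro ⟨m, hm⟩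
  have h1 : ((n * θ : ℝ) : ℂ) = (m : ℂ) := by
    have hne : (2 * (Real.pi : ℂ) * Complex.I) ≠ 0 := by
      simp [Real.pi_ne_zero, Complex.I_ne_zero]
    have : (2 * (Real.pi : ℂ) * Complex.I) * ((n * θ : ℝ) : ℂ)
        = (2 * (Real.pi : ℂ) * Complex.I) * (m : ℂ) := by
      rw [hm]; ring
    exact mul_left_cancel₀ hne this
  have h2 : (n * θ : ℝ) = m := by exact_mod_cast h1
  apply hθ
  refine ⟨(m : ℚ) / n, ?_⟩
  push_cast
  rw [← h2]
  have : (n : ℝ) ≠ 0 := by exact_mod_cast hn.ne'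
  field_simp

/-- the generic set of angles -/
def Gen (θ : ℝ) : Prop := Irrational θ ∧ ∀ N : ℕ, ∃ n > N, ‖E θ ^ n - 1‖ < del n

theorem gen_residual : ∀ᶠ θ in residual ℝ, Gen θ := by
  unfold Gen
  refine eventually_residual_irrational.and ?_
  rw [eventually_countable_forall]
  intro N
  have hopen : IsOpen {θ : ℝ | ∃ n > N, ‖E θ ^ n - 1‖ < del n} := by
    have : {θ : ℝ | ∃ n > N, ‖E θ ^ n - 1‖ < del n}
        = ⋃ n : ℕ, ⋃ (_ : n > N), {θ : ℝ | ‖E θ ^ n - 1‖ < del n} := by
      ext θ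
      simp only [mem_iUnion, exists_prop]
      rfl
    rw [this]
    refine isOpen_iUnion fun n => isOpen_iUnion fun _ => ?_
    apply isOpen_lt _ continuous_const
    exact ((continuous_E.pow n).sub continuous_const).norm
  refine residual_of_dense_open hopen ?_
  refine Rat.isDenseEmbedding_coe_real.dense.mono ?_
  rintro _ ⟨r, rfl⟩
  refine ⟨r.den * (N + 1), ?_, ?_⟩
  · have := r.pos
    nlinarith
  · have h1 : E (r : ℝ) ^ (r.den * (N + 1)) = 1 := by
      rw [E_pow, Complex.exp_eq_one_iff]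
      refine ⟨r.num * (N + 1), ?_⟩
      have h2 : ((r.den * (N + 1) : ℕ) : ℝ) * (r : ℝ) = (r.num * (N + 1) : ℤ) := by
        have h3 : (r.den : ℝ) * (r : ℝ) = r.num := by
          have := Rat.den_mul_eq_num r
          exact_mod_cast this
        push_cast
        rw [← h3]
        ring
      rw [h2]
      push_cast
      ring
    rw [h1]
    simpa using del_pos _

end Pool.Agent.Cremer51
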