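import Mathlib
import Pool.Agent.Cremer51.Defs
import Pool.Agent.Cremer51.Small
import Pool.Agent.Cremer51.Repel

/-!
# The pair `f = λ z + z^2`, `g = (conj λ z + z^2)^{-1}`.
-/

set_option autoImplicit false

open Metric Set Filter Topology
open scoped ComplexConjugate

namespace Pool.Agent.Cremer51

/-- the local inverse of `mu z + z^2` at `0` -/
noncomputable def ginv (mu : ℂ) (w : ℂ) : ℂ := (mu / 2) * (-1 + (1 + 4 * w / mu ^ 2) ^ (2⁻¹ : ℂ))

theorem quad_hasDerivAt (lam z : ℂ) : HasDerivAt (quad lam) (lam + 2 * z) z := by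
  have h1 : HasDerivAt (fun z : ℂ => lam * z) lam z := by
    simpa using (hasDerivAt_id z).const_mul lam
  have h2 : HasDerivAt (fun z : ℂ => z ^ 2) (2 * z) z := by
    simpa using hasDerivAt_pow 2 z
  exact h1.add h2

theorem ginv_right (mu : ℂ) (hmu : mu ≠ 0) (w : ℂ) : quad mu (ginv mu w) = w := by
  unfold quad ginv
  have h1 : ((1 + 4 * w / mu ^ 2) ^ (2⁻¹ : ℂ)) ^ 2 = 1 + 4 * w / mu ^ 2 := by
    have := Complex.cpow_nat_inv_pow (1 + 4 * w / mu ^ 2) (n := 2) two_ne_zero
    exact_mod_cast this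
  set s := (1 + 4 * w / mu ^ 2) ^ (2⁻¹ : ℂ) with hs
  have : mu * (mu / 2 * (-1 + s)) + (mu / 2 * (-1 + s)) ^ 2 = mu ^ 2 / 4 * (s ^ 2 - 1) := by ring
  rw [this, h1]
  field_simp
  ring

theorem ginv_left (mu : ℂ) (hmu : ‖mu‖ = 1) (z : ℂ) (hz : ‖z‖ < 1 / 2) :
    ginv mu (quad mu z) = z := by
  have hne : mu ≠ 0 := by
    intro h; rw [h] at hmu; simp at hmu
  unfold quad ginv
  have h1 : 1 + 4 * (mu * z + z ^ 2) / mu ^ 2 = (1 + 2 * z / mu) ^ 2 := by
    field_simp
    ring
  have h2 : 0 < (1 + 2 * z / mu).re := by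
    have h3 : ‖2 * z / mu‖ < 1 := by
      rw [norm_div, norm_mul, hmu]
      simp
      linarith
    have h4 := Complex.abs_re_le_norm (2 * z / mu)
    have h5 := abs_le.1 (h4.trans h3.le)
    have h6 := (abs_lt.1 (h4.trans_lt h3)).1
    simp only [Complex.add_re, Complex.one_re]
    linarith
  rw [h1, Complex.sq_cpow_two_inv h2]
  field_simp
  ring

theorem ginv_zero (mu : ℂ) : ginv mu 0 = 0 := by
  unfold ginv; simp

theorem ginv_hasDerivAt (mu : ℂ) (hmu : ‖mu‖ = 1) (w : ℂ) (hw : ‖w‖ < 1 / 4) :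
    HasDerivAt (ginv mu) (mu + 2 * ginv mu w)⁻¹ w := by
  have hne : mu ≠ 0 := by
    intro h; rw [h] at hmu; simp at hmu
  have hslit : (1 + 4 * w / mu ^ 2) ∈ Complex.slitPlane := by
    have h3 : ‖4 * w / mu ^ 2‖ < 1 := by
      rw [norm_div, norm_mul, norm_pow, hmu]
      simp
      linarith
    have h4 := Complex.abs_re_le_norm (4 * w / mu ^ 2)
    have h6 := (abs_lt.1 (h4.trans_lt h3)).1
    left
    simp only [Complex.add_re, Complex.one_re]
    linarith
  have hdiff : DifferentiableAt ℂ (ginv mu) w := by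
    unfold ginv
    have h1 : DifferentiableAt ℂ (fun w : ℂ => 1 + 4 * w / mu ^ 2) w := by fun_prop
    have h2 : DifferentiableAt ℂ (fun w : ℂ => (1 + 4 * w / mu ^ 2) ^ (2⁻¹ : ℂ)) w :=
      h1.cpow (differentiableAt_const _) hslit
    exact (h2.const_add (-1)).const_mul (mu / 2)
  have hd := hdiff.hasDerivAt
  have hq : HasDerivAt (quad mu) (mu + 2 * ginv mu w) (ginv mu w) := quad_hasDerivAt mu _
  have hc := hq.comp w hd
  have he : (quad mu ∘ ginv mu) = id := by
    ext w; exact ginv_right mu hne w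
  rw [he] at hc
  have h1 := hc.unique (hasDerivAt_id w)
  have h2 : (mu + 2 * ginv mu w) ≠ 0 := by
    intro h; rw [h] at h1; simp at h1
  have h3 : deriv (ginv mu) w = (mu + 2 * ginv mu w)⁻¹ := by
    field_simp
    linear_combination h1
  rw [← h3]
  exact hd

theorem ginv_injective (mu : ℂ) (hmu : mu ≠ 0) : Function.Injective (ginv mu) := by
  intro x y hxy
  rw [← ginv_right mu hmu x, ← ginv_right mu hmu y, hxy]

theorem ginv_differentiableOn (mu : ℂ) (hmu : ‖mu‖ = 1) :
    DifferentiableOn ℂ (ginv mu) (ball 0 (1/4)) := by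
  intro w hw
  exact (ginv_hasDerivAt mu hmu w (by simpa using hw)).differentiableAt.differentiableWithinAt

theorem quad_injOn (lam : ℂ) (hl : ‖lam‖ = 1) : InjOn (quad lam) (ball 0 (1/2)) := by
  intro z hz w hw h
  simp only [mem_ball, dist_zero_right] at hz hw
  unfold quad at h
  have h1 : (z - w) * (lam + (z + w)) = 0 := by linear_combination h
  rcases mul_eq_zero.1 h1 with h2 | h2
  · exact sub_eq_zero.1 h2
  · exfalso
    have h3 : lam = -(z + w) := by linear_combination h2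
    have h4 : ‖lam‖ ≤ ‖z‖ + ‖w‖ := by rw [h3, norm_neg]; exact norm_add_le _ _
    linarith

theorem homeo_closedBall {r : ℝ} (hr : 0 < r) :
    Nonempty (↥(closedBall (0:ℂ) r) ≃ₜ ↥(closedBall (0 : ℂ) 1)) := by
  have hne : ((r:ℂ))⁻¹ ≠ 0 := inv_ne_zero (by exact_mod_cast hr.ne')
  let e : ℂ ≃ₜ ℂ := Homeomorph.mulLeft₀ ((r:ℂ)⁻¹) hne
  have himg : e '' closedBall (0:ℂ) r = closedBall (0:ℂ) 1 := by
    ext z
    simp only [mem_image, mem_closedBall, dist_zero_right]
    constructor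
    · rintro ⟨w, hw, rfl⟩
      show ‖(r:ℂ)⁻¹ * w‖ ≤ 1
      rw [norm_mul, norm_inv, Complex.norm_real, Real.norm_of_nonneg hr.le,
        inv_mul_le_iff₀ hr]
      simpa using hw
    · intro hz
      refine ⟨r * z, ?_, ?_⟩
      · rw [norm_mul, Complex.norm_real, Real.norm_of_nonneg hr.le]
        nlinarith
      · show (r:ℂ)⁻¹ * (r * z) = z
        have : (r:ℂ) ≠ 0 := by exact_mod_cast hr.ne'
        field_simp
  exact ⟨(e.image (closedBall (0:ℂ) r)).trans (Homeomorph.setCongr himg)⟩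

theorem admissible_quad (lam : ℂ) (hl : ‖lam‖ = 1) :
    Admissible (quad lam) (closedBall 0 (1/10)) := by
  refine ⟨isCompact_closedBall _ _, homeo_closedBall (by norm_num), ?_, ball 0 (1/2), isOpen_ball,
    closedBall_subset_ball (by norm_num), ?_, quad_injOn lam hl⟩
  · rw [mem_interior_iff_mem_nhds]
    exact closedBall_mem_nhds _ (by norm_num)
  · exact fun z _ => (quad_hasDerivAt lam z).differentiableAt.differentiableWithinAt

theorem admissible_ginv (mu : ℂ) (hmu : ‖mu‖ = 1) :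
    Admissible (ginv mu) (closedBall 0 (1/10)) := by
  have hne : mu ≠ 0 := by
    intro h; rw [h] at hmu; simp at hmu
  refine ⟨isCompact_closedBall _ _, homeo_closedBall (by norm_num), ?_, ball 0 (1/4), isOpen_ball,
    closedBall_subset_ball (by norm_num), ginv_differentiableOn mu hmu,
    (ginv_injective mu hne).injOn⟩
  rw [mem_interior_iff_mem_nhds]
  exact closedBall_mem_nhds _ (by norm_num)

theorem conj_quad (lam z : ℂ) : conj (quad lam z) = quad (conj lam) (conj z) := by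
  unfold quad; simp

/-- complex conjugation as a homeomorphism -/
noncomputable def cc : ℂ ≃ₜ ℂ := Complex.conjCLE.toHomeomorph

theorem cc_apply (z : ℂ) : cc z = conj z := rfl

/-- **The two-sided stable sets of `f` and `g` are complex conjugate**, for every `U` contained in
the disc of radius `1/2`. -/
theorem stableSet_ginv (lam : ℂ) (hl : ‖lam‖ = 1) (U : Set ℂ) (hU : U ⊆ ball 0 (1/2)) :
    stableSet (ginv (conj lam)) (cc '' U) = cc '' stableSet (quad lam) U := by
  have hl' : ‖conj lam‖ = 1 := by rw [Complex.norm_conj, hl]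
  have hne : conj lam ≠ 0 := by
    intro h; rw [h] at hl'; simp at hl'
  ext z
  constructor
  · rintro ⟨y, hy0, hy⟩
    refine ⟨conj z, ⟨fun k => conj (y (-k)), by simp [hy0], fun k => ⟨?_, ?_⟩⟩, by simp [cc_apply]⟩
    · obtain ⟨u, hu, hu2⟩ := (hy (-k)).1
      show conj (y (-k)) ∈ U
      rw [← hu2, cc_apply, Complex.conj_conj]
      exact hu
    · have h1 := (hy (-(k+1))).2
      have h2 : -(k + 1) + 1 = -k := by ring
      rw [h2] at h1
      -- y(-k) = g (y (-(k+1)))
      show quad lam (conj (y (-k))) = conj (y (-(k+1)))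
      have h3 : quad (conj lam) (y (-k)) = y (-(k+1)) := by
        rw [← h1]; exact ginv_right _ hne _
      rw [← h3, conj_quad, Complex.conj_conj]
  · rintro ⟨w, ⟨x, hx0, hx⟩, rfl⟩
    refine ⟨fun k => conj (x (-k)), by simp [hx0, cc_apply], fun k => ⟨⟨x (-k), (hx (-k)).1, rfl⟩, ?_⟩⟩
    have h1 := (hx (-(k+1))).2
    have h2 : -(k + 1) + 1 = -k := by ring
    rw [h2] at h1
    show ginv (conj lam) (conj (x (-k))) = conj (x (-(k+1)))
    rw [← h1, conj_quad]
    apply ginv_left _ hl'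
    rw [Complex.norm_conj]
    simpa using hU (hx (-(k+1))).1

theorem zero_mem_stableSet (f : ℂ → ℂ) (hf : f 0 = 0) (U : Set ℂ) (hU : (0:ℂ) ∈ U) :
    (0:ℂ) ∈ stableSet f U := ⟨fun _ => 0, rfl, fun _ => ⟨hU, hf⟩⟩

theorem quad_zero (lam : ℂ) : quad lam 0 = 0 := by simp [quad]

theorem hedgehog_ginv (lam : ℂ) (hl : ‖lam‖ = 1) (U : Set ℂ) (hU : U ⊆ ball 0 (1/2))
    (h0 : (0:ℂ) ∈ U) :
    hedgehog (ginv (conj lam)) (cc '' U) = cc '' hedgehog (quad lam) U := by
  unfold hedgehog
  rw [stableSet_ginv lam hl U hU, cc.image_connectedComponentIn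
    (zero_mem_stableSet _ (quad_zero lam) U h0), cc_apply, map_zero]

theorem homeoGerms_image (A : Set ℂ) (e : ℂ ≃ₜ ℂ) (he : e 0 = 0) : HomeoGerms A (e '' A) := by
  refine ⟨univ, univ_mem, univ, univ_mem,
    ((Homeomorph.setCongr (inter_univ A)).trans (e.image A)).trans
      (Homeomorph.setCongr (inter_univ (e '' A)).symm), ?_⟩
  intro x hx
  show e (x : ℂ) = 0
  rw [hx, he]

/-- germs with small cycles are not linearizable -/
theorem not_lin (f : ℂ → ℂ) (hs : SmallCycles f) (hroot : ∀ n > 0, deriv f 0 ^ n ≠ 1) :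
    ¬ ∃ ψ : ℂ → ℂ, AnalyticAt ℂ ψ 0 ∧ ψ 0 = 0 ∧ deriv ψ 0 ≠ 0 ∧
      ∀ᶠ z in 𝓝 (0 : ℂ), ψ (f z) = deriv f 0 * ψ z := by
  rintro ⟨ψ, hψ, hψ0, hψ', hev⟩
  have hsd : HasStrictDerivAt ψ (deriv ψ 0) 0 := hψ.hasStrictDerivAt
  have hinj : ∀ᶠ z in 𝓝 (0:ℂ), ψ z = 0 → z = 0 := by
    have h1 := (hsd.hasStrictFDerivAt_equiv hψ').eventually_left_inverse
    filter_upwards [h1] with z hz hz0
    have h2 := h1.self_of_nhds
    rw [hψ0] at h2
    rw [hz0] at hz
    rw [← hz, h2]
  obtain ⟨δ, hδ, hδ2⟩ := Metric.eventually_nhds_iff.1 (hev.and hinj)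
  obtain ⟨n, hn, q, hq1, hq2, hq3, hq4⟩ := hs δ hδ
  have hk : ∀ k, ψ (q k) = deriv f 0 ^ k * ψ (q 0) := by
    intro k
    induction k with
    | zero => simp
    | succ k ih =>
      have h1 := (hδ2 (y := q k) (by simpa using hq1 k)).1
      rw [hq4 k] at h1
      rw [h1, ih, pow_succ]
      ring
  have h1 := hk n
  have h2 : q n = q 0 := by simpa using hq3 0
  rw [h2] at h1
  have h3 : (deriv f 0 ^ n - 1) * ψ (q 0) = 0 := by linear_combination -h1
  rcases mul_eq_zero.1 h3 with h | h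
  · exact hroot n hn (sub_eq_zero.1 h)
  · exact hq2 0 ((hδ2 (y := q 0) (by simpa using hq1 0)).2 h)

theorem periodic_mul (q : ℕ → ℂ) (n : ℕ) (h : ∀ k, q (k + n) = q k) (m k : ℕ) :
    q (n * m + k) = q k := by
  induction m with
  | zero => simp
  | succ m ih => rw [← ih, ← h (n * m + k), show n * (m + 1) + k = n * m + k + n by ring]

/-- small cycles of the inverse germ -/
theorem smallCycles_ginv (lam : ℂ) (hl : ‖lam‖ = 1) (hs : SmallCycles (quad lam)) :
    SmallCycles (ginv (conj lam)) := by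
  have hl' : ‖conj lam‖ = 1 := by rw [Complex.norm_conj, hl]
  intro δ hδ
  obtain ⟨n, hn, q, hq1, hq2, hq3, hq4⟩ := hs (min δ (1/2)) (lt_min hδ (by norm_num))
  obtain ⟨m, rfl⟩ := Nat.exists_eq_succ_of_ne_zero hn.ne'
  refine ⟨m + 1, hn, fun k => conj (q (m * k)), fun k => ?_, fun k => ?_, fun k => ?_, fun k => ?_⟩
  · rw [Complex.norm_conj]
    exact (hq1 _).trans_le (min_le_left _ _)
  · simpa using hq2 (m * k)
  · have : m * (k + (m + 1)) = (m + 1) * m + m * k := by ring
    show conj (q (m * (k + (m + 1)))) = conj (q (m * k))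
    rw [this, periodic_mul q (m+1) hq3]
  · show ginv (conj lam) (conj (q (m * k))) = conj (q (m * (k + 1)))
    have h1 : quad lam (q (m * (k+1))) = q (m * k) := by
      rw [hq4, ← hq3 (m * k)]
      congr 1
    rw [← h1, conj_quad]
    apply ginv_left _ hl'
    rw [Complex.norm_conj]
    exact (hq1 _).trans_le (min_le_right _ _)

/-- forward version of `repelling` -/
theorem repelling_fwd (lam : ℂ) (hl : ‖lam‖ = 1) (n : ℕ) (hn : 0 < n) (q : ℕ → ℂ)
    (hq : ∀ k, ‖q k‖ < 1) (hqf : ∀ k, quad lam (q k) = q (k + 1))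
    (hper : ∀ k, q (k + n) = q k) (hne : ∀ k, q k ≠ 0) :
    1 < ‖∏ j ∈ Finset.range n, (lam + 2 * q j)‖ := by
  obtain ⟨m, rfl⟩ := Nat.exists_eq_succ_of_ne_zero hn.ne'
  have h := repelling lam hl (m + 1) hn (fun k => q (m * k)) (fun k => hq _) (fun k => by
      show quad lam (q (m * (k+1))) = q (m * k)
      rw [hqf, ← hper (m * k)]
      congr 1) (fun k => by
      show q (m * (k + (m + 1))) = q (m * k)
      have : m * (k + (m + 1)) = (m + 1) * m + m * k := by ring
      rw [this, periodic_mul q (m+1) hper]) (fun k => hne _)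
  have e : ∏ j ∈ Finset.range (m+1), (lam + 2 * q (m * (j + 1)))
      = ∏ j ∈ Finset.range (m+1), (lam + 2 * q j) := by
    rw [← Finset.prod_range_reflect (fun j => lam + 2 * q j) (m+1)]
    apply Finset.prod_congr rfl
    intro j hj
    have hj' : j ≤ m := by simpa [Nat.lt_succ_iff] using hj
    have : m * (j + 1) = (m + 1) * j + (m + 1 - 1 - j) := by
      obtain ⟨t, rfl⟩ := Nat.exists_eq_add_of_le hj'
      have : j + t + 1 - 1 - j = t := by omega
      rw [this]
      ring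
    rw [this, periodic_mul q (m+1) hper]
  rw [← e]
  exact h

theorem quad_iter_deriv (lam : ℂ) (q : ℕ → ℂ) (hqf : ∀ k, quad lam (q k) = q (k + 1)) (m : ℕ) :
    (quad lam)^[m] (q 0) = q m ∧
    HasDerivAt ((quad lam)^[m]) (∏ j ∈ Finset.range m, (lam + 2 * q j)) (q 0) := by
  induction m with
  | zero => simpa using hasDerivAt_id (q 0)
  | succ m ih =>
    refine ⟨by rw [Function.iterate_succ_apply', ih.1, hqf], ?_⟩
    rw [Function.iterate_succ', Finset.prod_range_succ, mul_comm]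
    have h1 := quad_hasDerivAt lam (q m)
    rw [← ih.1] at h1
    have h2 := h1.comp (q 0) ih.2
    rw [ih.1] at h2
    exact h2

theorem ginv_iter_deriv (mu : ℂ) (hmu : ‖mu‖ = 1) (y : ℕ → ℂ)
    (hy : ∀ k, ginv mu (y k) = y (k + 1)) (hb : ∀ k, ‖y k‖ < 1/4) (m : ℕ) :
    (ginv mu)^[m] (y 0) = y m ∧
    HasDerivAt ((ginv mu)^[m]) (∏ j ∈ Finset.range m, (mu + 2 * y (j+1)))⁻¹ (y 0) := by
  induction m with
  | zero => simpa using hasDerivAt_id (y 0)
  | succ m ih =>
    refine ⟨by rw [Function.iterate_succ_apply', ih.1, hy], ?_⟩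
    rw [Function.iterate_succ', Finset.prod_range_succ, mul_inv, mul_comm]
    have h1 := ginv_hasDerivAt mu hmu (y m) (hb m)
    rw [hy m] at h1
    rw [← ih.1] at h1
    exact h1.comp (y 0) ih.2

/-- expansion from the derivative -/
theorem expand {F : ℂ → ℂ} {M p : ℂ} (hF : HasDerivAt F M p) (hp : F p = p) (hM : 1 < ‖M‖) :
    ∃ κ > 1, ∃ τ > 0, ∀ x, ‖x - p‖ < τ → κ * ‖x - p‖ ≤ ‖F x - p‖ := by
  have hc : 0 < (‖M‖ - 1) / 2 := by linarith
  obtain ⟨τ, hτ, hτ2⟩ := Metric.eventually_nhds_iff.1 (hF.isLittleO.def hc)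
  refine ⟨(‖M‖ + 1) / 2, by linarith, τ, hτ, fun x hx => ?_⟩
  have h1 := hτ2 (y := x) (by rwa [dist_eq_norm])
  rw [hp, smul_eq_mul] at h1
  have h2 : ‖(x - p) * M‖ ≤ ‖F x - p‖ + ‖F x - p - (x - p) * M‖ := by
    have := norm_sub_le (F x - p) (F x - p - (x - p) * M)
    rwa [sub_sub_cancel] at this
  rw [norm_mul] at h2
  linarith

/-- contraction from the derivative -/
theorem contract {G : ℂ → ℂ} {M p : ℂ} (hG : HasDerivAt G M p) (hp : G p = p) (hM : ‖M‖ < 1) :
    ∃ τ > 0, ∀ x, ‖x - p‖ < τ → ‖G x - p‖ ≤ ‖x - p‖ := by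
  have hc : 0 < (1 - ‖M‖) := by linarith
  obtain ⟨τ, hτ, hτ2⟩ := Metric.eventually_nhds_iff.1 (hG.isLittleO.def hc)
  refine ⟨τ, hτ, fun x hx => ?_⟩
  have h1 := hτ2 (y := x) (by rwa [dist_eq_norm])
  rw [hp, smul_eq_mul] at h1
  have h2 : ‖G x - p‖ ≤ ‖G x - p - (x - p) * M‖ + ‖(x - p) * M‖ := by
    have := norm_add_le (G x - p - (x - p) * M) ((x - p) * M)
    rwa [sub_add_cancel] at this
  rw [norm_mul] at h2
  linarith

/-- **`f` and `g` are not topologically conjugate**: the small cycles of `f` are repelling, those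
of `g` attracting. -/
theorem not_topConj (lam : ℂ) (hl : ‖lam‖ = 1) (hs : SmallCycles (quad lam)) :
    ¬ TopConj (quad lam) (ginv (conj lam)) := by
  rintro ⟨V, hV, W, hW, h, h0, ε, hε, hconj⟩
  have hl' : ‖conj lam‖ = 1 := by rw [Complex.norm_conj, hl]
  have hne' : conj lam ≠ 0 := by
    intro h; rw [h] at hl'; simp at hl'
  classical
  set g := ginv (conj lam) with hg
  set f := quad lam with hf
  set H : ℂ → ℂ := fun z => if hz : z ∈ V then ((h ⟨z, hz⟩ : ↥W) : ℂ) else 0 with hH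
  set Hi : ℂ → ℂ := fun w => if hw : w ∈ W then ((h.symm ⟨w, hw⟩ : ↥V) : ℂ) else 0 with hHi
  have hHV : ∀ z (hz : z ∈ V), H z = ((h ⟨z, hz⟩ : ↥W) : ℂ) := fun z hz => by simp [hH, hz]
  have hHiW : ∀ w (hw : w ∈ W), Hi w = ((h.symm ⟨w, hw⟩ : ↥V) : ℂ) := fun w hw => by simp [hHi, hw]
  have hmap : ∀ z ∈ V, H z ∈ W ∧ Hi (H z) = z := by
    intro z hz
    have h1 : H z ∈ W := by rw [hHV z hz]; exact (h ⟨z, hz⟩).2
    refine ⟨h1, ?_⟩
    rw [hHiW _ h1]
    have : (⟨H z, h1⟩ : ↥W) = h ⟨z, hz⟩ := Subtype.ext (hHV z hz)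
    rw [this, h.symm_apply_apply]
  have hmap' : ∀ w ∈ W, Hi w ∈ V ∧ H (Hi w) = w := by
    intro w hw
    have h1 : Hi w ∈ V := by rw [hHiW w hw]; exact (h.symm ⟨w, hw⟩).2
    refine ⟨h1, ?_⟩
    rw [hHV _ h1]
    have : (⟨Hi w, h1⟩ : ↥V) = h.symm ⟨w, hw⟩ := Subtype.ext (hHiW w hw)
    rw [this, h.apply_symm_apply]
  have hHc : ContinuousOn H V := by
    rw [continuousOn_iff_continuous_domRestrict]
    have : V.domRestrict H = fun x : ↥V => ((h x : ↥W) : ℂ) := by
      ext x; exact hHV x.1 x.2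
    rw [this]
    exact continuous_subtype_val.comp h.continuous
  have hHic : ContinuousOn Hi W := by
    rw [continuousOn_iff_continuous_domRestrict]
    have : W.domRestrict Hi = fun x : ↥W => ((h.symm x : ↥V) : ℂ) := by
      ext x; exact hHiW x.1 x.2
    rw [this]
    exact continuous_subtype_val.comp h.symm.continuous
  have h0V : (0:ℂ) ∈ V := mem_of_mem_nhds hV
  have hH0 : H 0 = 0 := by rw [hHV 0 h0V]; exact h0 ⟨0, h0V⟩ rfl
  have hHi0 : Hi 0 = 0 := by
    have := (hmap 0 h0V).2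
    rwa [hH0] at this
  have hHconj : ∀ x ∈ V, ‖x‖ < ε → f x ∈ V → H (f x) = g (H x) := by
    intro x hx hxε hfx
    rw [hHV _ hfx, hHV _ hx]
    exact hconj ⟨x, hx⟩ ⟨f x, hfx⟩ hxε rfl
  obtain ⟨η0, hη0, hη0V⟩ := Metric.mem_nhds_iff.1 hV
  obtain ⟨η1, hη1, hη1W⟩ := Metric.mem_nhds_iff.1 hW
  set η := min η0 (min ε (1/4)) with hη
  have hηpos : 0 < η := lt_min hη0 (lt_min hε (by norm_num))
  have hηV : ∀ z : ℂ, ‖z‖ < η → z ∈ V := fun z hz =>
    hη0V (by simpa using hz.trans_le (min_le_left _ _))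
  have hηε : η ≤ ε := (min_le_right _ _).trans (min_le_left _ _)
  have hη4 : η ≤ 1/4 := (min_le_right _ _).trans (min_le_right _ _)
  set η' := min η1 (1/10) with hη'
  have hη'pos : 0 < η' := lt_min hη1 (by norm_num)
  have hη'W : ∀ z : ℂ, ‖z‖ < η' → z ∈ W := fun z hz =>
    hη1W (by simpa using hz.trans_le (min_le_left _ _))
  have hη'10 : η' ≤ 1/10 := min_le_right _ _
  -- continuity of `H` at `0`
  have hHat : ContinuousAt H 0 := hHc.continuousAt hV
  obtain ⟨δ1, hδ1, hδ1H⟩ := Metric.continuousAt_iff.1 hHat η' hη'pos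
  set δ := min δ1 η with hδ
  have hδpos : 0 < δ := lt_min hδ1 hηpos
  obtain ⟨n, hn, q, hq1, hq2, hq3, hq4⟩ := hs δ hδpos
  have hqη : ∀ k, ‖q k‖ < η := fun k => (hq1 k).trans_le (min_le_right _ _)
  have hqV : ∀ k, q k ∈ V := fun k => hηV _ (hqη k)
  set y : ℕ → ℂ := fun k => H (q k) with hy
  have hyη : ∀ k, ‖y k‖ < η' := by
    intro k
    have := hδ1H (x := q k) (by simpa using (hq1 k).trans_le (min_le_left _ _))
    rw [hH0] at this
    simpa using this
  have hyg : ∀ k, g (y k) = y (k + 1) := by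
    intro k
    have := hHconj (q k) (hqV k) ((hqη k).trans_le hηε) (by rw [hq4]; exact hqV _)
    rw [hq4] at this
    exact this.symm
  have hyper : ∀ k, y (k + n) = y k := fun k => by simp only [hy, hq3]
  have hyne : ∀ k, y k ≠ 0 := by
    intro k hk
    have h1 := (hmap (q k) (hqV k)).2
    have h2 : H (q k) = 0 := hk
    rw [h2, hHi0] at h1
    exact hq2 k h1.symm
  -- multipliers
  have hMf := repelling_fwd lam hl n hn q (fun k => by have := hqη k; linarith) hq4 hq3 hq2
  have hMg := repelling (conj lam) hl' n hn y (fun k => by have := hyη k; linarith) (fun k => by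
      have : quad (conj lam) (g (y k)) = y k := ginv_right _ hne' _
      rw [hyg] at this
      exact this) hyper hyne
  have hqn : q n = q 0 := by simpa using hq3 0
  have hyn : y n = y 0 := by simpa using hyper 0
  obtain ⟨hFq, hFd⟩ := quad_iter_deriv lam q hq4 n
  obtain ⟨hGy, hGd⟩ := ginv_iter_deriv (conj lam) hl' y hyg (fun k => by
    have := hyη k; linarith) n
  rw [hqn] at hFq
  rw [hyn] at hGy
  obtain ⟨κ, hκ, τ1, hτ1, hexp⟩ := expand hFd hFq hMf
  obtain ⟨τ2, hτ2, hcon⟩ := contract hGd hGy (by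
    rw [norm_inv]
    exact inv_lt_one_of_one_lt₀ hMg)
  -- iterates stay small near `q 0`
  have hfc : Continuous f := by
    rw [hf]; unfold quad; fun_prop
  have hev : ∀ᶠ x in 𝓝 (q 0), ∀ j ∈ Finset.range (n+1), ‖f^[j] x‖ < δ := by
    rw [Filter.eventually_all_finset]
    intro j _
    have h1 : f^[j] (q 0) = q j := (quad_iter_deriv lam q hq4 j).1
    have h2 : Tendsto (fun x => ‖f^[j] x‖) (𝓝 (q 0)) (𝓝 ‖f^[j] (q 0)‖) :=
      ((hfc.iterate j).norm).tendsto _
    rw [h1] at h2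
    exact h2.eventually_lt_const (hq1 j)
  obtain ⟨τ3, hτ3, hτ3f⟩ := Metric.eventually_nhds_iff.1 hev
  have hrel : ∀ x, ‖x - q 0‖ < τ3 → ∀ j ≤ n, H (f^[j] x) = g^[j] (H x) := by
    intro x hx j hj
    have hsm : ∀ i ≤ n, ‖f^[i] x‖ < δ := fun i hi =>
      hτ3f (y := x) (by rwa [dist_eq_norm]) i (Finset.mem_range.2 (by omega))
    have hsV : ∀ i ≤ n, f^[i] x ∈ V := fun i hi => hηV _ ((hsm i hi).trans_le (min_le_right _ _))
    induction j with
    | zero => rfl
    | succ j ih =>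
      have ih' := ih (by omega)
      rw [Function.iterate_succ_apply', Function.iterate_succ_apply', ← ih']
      apply hHconj _ (hsV j (by omega))
        (((hsm j (by omega)).trans_le (min_le_right _ _)).trans_le hηε)
      rw [← Function.iterate_succ_apply' f]
      exact hsV (j+1) hj
  set τ0 := min τ1 τ3 with hτ0
  have hτ0pos : 0 < τ0 := lt_min hτ1 hτ3
  -- continuity of `Hi` at `y 0`
  have hy0W : W ∈ 𝓝 (y 0) := by
    have hb : ball (0:ℂ) η' ⊆ W := fun z hz => hη'W z (by simpa using hz)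
    exact Filter.mem_of_superset (isOpen_ball.mem_nhds (by simpa using hyη 0)) hb
  have hHiat : ContinuousAt Hi (y 0) := hHic.continuousAt hy0W
  have hHiy0 : Hi (y 0) = q 0 := (hmap (q 0) (hqV 0)).2
  obtain ⟨τ4, hτ4, hτ4H⟩ := Metric.continuousAt_iff.1 hHiat τ0 hτ0pos
  obtain ⟨τ5, hτ5, hτ5W⟩ := Metric.mem_nhds_iff.1 hy0W
  set τ := min τ2 (min τ4 τ5) with hτ
  have hτpos : 0 < τ := lt_min hτ2 (lt_min hτ4 hτ5)
  set G := g^[n] with hG
  set Ff := f^[n] with hFf
  set ys : ℕ → ℂ := fun m => G^[m] (y 0 + (τ/2 : ℝ)) with hys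
  have hysb : ∀ m, ‖ys m - y 0‖ < τ := by
    intro m
    induction m with
    | zero =>
      simp only [hys, Function.iterate_zero, id, add_sub_cancel_left, Complex.norm_real]
      rw [Real.norm_of_nonneg (by positivity)]
      linarith
    | succ m ih =>
      have h1 : ys (m+1) = G (ys m) := by
        simp only [hys, Function.iterate_succ_apply']
      rw [h1]
      exact (hcon _ (ih.trans_le (min_le_left _ _))).trans_lt ih
  have hysW : ∀ m, ys m ∈ W := fun m => hτ5W (by
    rw [mem_ball, dist_eq_norm]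
    exact (hysb m).trans_le ((min_le_right _ _).trans (min_le_right _ _)))
  set xs : ℕ → ℂ := fun m => Hi (ys m) with hxs
  have hxsb : ∀ m, ‖xs m - q 0‖ < τ0 := by
    intro m
    have := hτ4H (x := ys m) (by
      rw [dist_eq_norm]
      exact (hysb m).trans_le ((min_le_right _ _).trans (min_le_left _ _)))
    rw [hHiy0, dist_eq_norm] at this
    exact this
  have hstep : ∀ m, Ff (xs m) = xs (m + 1) := by
    intro m
    have h1 := hrel (xs m) ((hxsb m).trans_le (min_le_right _ _)) n le_rfl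
    have h2 : H (xs m) = ys m := (hmap' (ys m) (hysW m)).2
    rw [h2] at h1
    have h3 : g^[n] (ys m) = ys (m + 1) := by
      simp only [hys, Function.iterate_succ_apply', hG]
    rw [h3] at h1
    have h4 : f^[n] (xs m) ∈ V := by
      apply hηV
      have := hτ3f (y := xs m) (by
        rw [dist_eq_norm]; exact (hxsb m).trans_le (min_le_right _ _)) n
        (Finset.mem_range.2 (by omega))
      exact this.trans_le (min_le_right _ _)
    have h5 := (hmap _ h4).2
    rw [h1] at h5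
    exact h5.symm
  have hgrow : ∀ m, κ ^ m * ‖xs 0 - q 0‖ ≤ ‖xs m - q 0‖ := by
    intro m
    induction m with
    | zero => simp
    | succ m ih =>
      have h1 := hexp (xs m) ((hxsb m).trans_le (min_le_left _ _))
      have h2 : Ff (xs m) = xs (m+1) := hstep m
      rw [h2] at h1
      calc κ ^ (m+1) * ‖xs 0 - q 0‖ = κ * (κ ^ m * ‖xs 0 - q 0‖) := by ring
        _ ≤ κ * ‖xs m - q 0‖ := mul_le_mul_of_nonneg_left ih (by linarith)
        _ ≤ _ := h1
  have hx0 : 0 < ‖xs 0 - q 0‖ := by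
    rw [norm_pos_iff, sub_ne_zero]
    intro hx
    have h1 : H (xs 0) = ys 0 := (hmap' (ys 0) (hysW 0)).2
    rw [hx] at h1
    have h2 : ys 0 = y 0 + (τ/2 : ℝ) := rfl
    have h3 : y 0 = y 0 + (τ/2 : ℝ) := by
      rw [← h2, ← h1]
    have h4 : ((τ/2 : ℝ) : ℂ) = 0 := by
      have := congrArg (fun t => t - y 0) h3
      simpa using this.symm
    have h5 : (τ/2 : ℝ) = 0 := by exact_mod_cast h4
    linarith
  obtain ⟨m, hm⟩ := pow_unbounded_of_one_lt (τ0 / ‖xs 0 - q 0‖) hκ
  have h1 := hgrow m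
  have h2 := hxsb m
  rw [div_lt_iff₀ hx0] at hm
  linarith

theorem cc_image_ball_subset (U : Set ℂ) (r : ℝ) (hU : U ⊆ ball 0 r) : cc '' U ⊆ ball 0 r := by
  rintro _ ⟨w, hw, rfl⟩
  have := hU hw
  simp only [mem_ball, dist_zero_right, cc_apply] at this ⊢
  rwa [Complex.norm_conj]

theorem admissible_image (lam : ℂ) (hl : ‖lam‖ = 1) (U : Set ℂ) (hU : U ⊆ ball 0 (1/4))
    (h : Admissible (quad lam) U) : Admissible (ginv (conj lam)) (cc '' U) := by
  have hl' : ‖conj lam‖ = 1 := by rw [Complex.norm_conj, hl]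
  have hne : conj lam ≠ 0 := by
    intro h; rw [h] at hl'; simp at hl'
  obtain ⟨hc, ⟨e⟩, h0, -⟩ := h
  refine ⟨hc.image cc.continuous, ⟨(cc.image U).symm.trans e⟩, ?_, ball 0 (1/4), isOpen_ball,
    cc_image_ball_subset U _ hU, ginv_differentiableOn (conj lam) hl',
    (ginv_injective _ hne).injOn⟩
  rw [← cc.image_interior]
  exact ⟨0, h0, by simp [cc_apply]⟩

/-- invariant sets of `f` and `g` correspond -/
theorem invariant_iff (lam : ℂ) (hl : ‖lam‖ = 1) (K : Set ℂ) (hK : K ⊆ ball 0 (1/4)) :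
    quad lam '' K = K ↔ ginv (conj lam) '' (cc '' K) = cc '' K := by
  have hl' : ‖conj lam‖ = 1 := by rw [Complex.norm_conj, hl]
  have hne : conj lam ≠ 0 := by
    intro h; rw [h] at hl'; simp at hl'
  have key : ∀ z ∈ K, ginv (conj lam) (cc (quad lam z)) = cc z := by
    intro z hz
    rw [cc_apply, conj_quad]
    apply ginv_left _ hl'
    rw [Complex.norm_conj]
    have := hK hz
    simp only [mem_ball, dist_zero_right] at this
    linarith
  constructor
  · intro h
    conv_lhs => rw [← h]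
    rw [image_image, image_image]
    exact image_congr key
  · intro h
    have h1 : cc '' (quad lam '' K) = cc '' K := by
      have h2 : quad (conj lam) '' (ginv (conj lam) '' (cc '' K)) = cc '' K := by
        rw [image_image]
        have : (fun w => quad (conj lam) (ginv (conj lam) w)) = id := by
          ext w; exact ginv_right _ hne w
        rw [this, image_id]
      rw [h, image_image] at h2
      rw [image_image]
      have h3 : (fun x => cc (quad lam x)) = fun x => quad (conj lam) (cc x) := by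
        ext x; rw [cc_apply, cc_apply, conj_quad]
      rw [h3, h2]
    exact (image_injective.2 cc.injective) h1

/-- **Main theorem.** -/
theorem main (θ : ℝ) (hθ : Gen θ) : ∃ f g : ℂ → ℂ, IsCremer f ∧ IsCremer g ∧
    deriv f 0 = E θ ∧ deriv g 0 = E θ ∧
    Admissible f (closedBall 0 (1/10)) ∧
    (∀ U ⊆ ball (0 : ℂ) (1/4), Admissible f U → Admissible g (conj '' U) ∧
      stableSet g (conj '' U) = conj '' stableSet f U ∧
      hedgehog g (conj '' U) = conj '' hedgehog f U ∧
      HomeoGerms (stableSet f U) (stableSet g (conj '' U)) ∧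
      HomeoGerms (hedgehog f U) (hedgehog g (conj '' U))) ∧
    (∀ K ⊆ ball (0 : ℂ) (1/4), f '' K = K ↔ g '' (conj '' K) = conj '' K) ∧
    ¬ TopConj f g := by
  set lam := E θ with hlam
  have hl : ‖lam‖ = 1 := norm_E θ
  have hl' : ‖conj lam‖ = 1 := by rw [Complex.norm_conj, hl]
  have hroot : ∀ n > 0, lam ^ n ≠ 1 := fun n hn => E_pow_ne_one θ hθ.1 n hn
  have hs : SmallCycles (quad lam) := smallCycles lam hl hroot hθ.2
  have hdf : deriv (quad lam) 0 = lam := by
    have := (quad_hasDerivAt lam 0).deriv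
    simpa using this
  have hconjinv : (conj lam)⁻¹ = lam := by
    rw [inv_eq_iff_eq_inv]
    rw [Complex.inv_def]
    have : Complex.normSq lam = 1 := by rw [Complex.normSq_eq_norm_sq, hl]; norm_num
    rw [this]; simp
  have hdg : deriv (ginv (conj lam)) 0 = lam := by
    have := (ginv_hasDerivAt (conj lam) hl' 0 (by norm_num)).deriv
    rw [ginv_zero] at this
    simpa [hconjinv] using this
  refine ⟨quad lam, ginv (conj lam), ?_, ?_, hdf, hdg, admissible_quad lam hl, ?_,
    invariant_iff lam hl, not_topConj lam hl hs⟩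
  · refine ⟨?_, quad_zero lam, ⟨θ, hθ.1, hdf⟩, not_lin _ hs (by rwa [hdf])⟩
    have : Differentiable ℂ (quad lam) := fun z => (quad_hasDerivAt lam z).differentiableAt
    exact this.analyticAt 0
  · refine ⟨?_, ginv_zero _, ⟨θ, hθ.1, hdg⟩, not_lin _ (smallCycles_ginv lam hl hs) (by rwa [hdg])⟩
    exact (ginv_differentiableOn (conj lam) hl').analyticAt (isOpen_ball.mem_nhds (by simp))
  · intro U hU hadm
    have hU' : U ⊆ ball 0 (1/2) := hU.trans (ball_subset_ball (by norm_num))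
    have h0U : (0:ℂ) ∈ U := interior_subset hadm.2.2.1
    have h1 : stableSet (ginv (conj lam)) (cc '' U) = cc '' stableSet (quad lam) U :=
      stableSet_ginv lam hl U hU'
    have h2 : hedgehog (ginv (conj lam)) (cc '' U) = cc '' hedgehog (quad lam) U :=
      hedgehog_ginv lam hl U hU' h0U
    refine ⟨admissible_image lam hl U hU hadm, h1, h2, ?_, ?_⟩
    · show HomeoGerms (stableSet (quad lam) U) (stableSet (ginv (conj lam)) (cc '' U))
      rw [h1]
      exact homeoGerms_image _ cc (by simp [cc_apply])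
    · show HomeoGerms (hedgehog (quad lam) U) (hedgehog (ginv (conj lam)) (cc '' U))
      rw [h2]
      exact homeoGerms_image _ cc (by simp [cc_apply])

end Pool.Agent.Cremer51
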